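import Pool.Agent.L7h36.CJC.Defs

/-!
# A finite semidistributive lattice from an acyclic relation with factorisation
-/

set_option autoImplicit false

namespace Pool.Agent.L7h36.CJC

universe u

variable {S : Type u}

/-- A reflexive antisymmetric relation in which all arrows factor. -/
structure Fac (R : S → S → Prop) : Prop where
  refl : ∀ x, R x x
  anti : ∀ x y, R x y → R y x → x = y
  fac : ∀ x y, R x y → ∃ z, (∀ w, R z w → R x w) ∧ (∀ w, R w z → R w y)

/-- The lattice of the relation `R`. -/
abbrev Lat (R : S → S → Prop) : Type u := Concept S S (fun x y => ¬ R x y)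

section
variable {R : S → S → Prop}

theorem mem_ext (c : Lat R) (x : S) : x ∈ c.extent ↔ ∀ y ∈ c.intent, ¬ R x y := by
  conv_lhs => rw [← c.lowerPolar_intent]
  rfl

theorem mem_int (c : Lat R) (y : S) : y ∈ c.intent ↔ ∀ x ∈ c.extent, ¬ R x y := by
  conv_lhs => rw [← c.upperPolar_extent]
  rfl

theorem le_ext {c d : Lat R} : c ≤ d ↔ c.extent ⊆ d.extent := Iff.rfl

/-- The element generated by `v`. -/
def gen (R : S → S → Prop) (v : S) : Lat R := Concept.ofObjects _ {v}

/-- The element cogenerated by `v`. -/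
def cog (R : S → S → Prop) (v : S) : Lat R := Concept.ofAttributes _ {v}

theorem mem_gen (v x : S) : x ∈ (gen R v).extent ↔ ∀ w, R x w → R v w := by
  rw [mem_ext]
  have : ∀ y, y ∈ (gen R v).intent ↔ ¬ R v y := by
    intro y
    change y ∈ upperPolar _ {v} ↔ _
    simp [mem_upperPolar_iff]
  simp only [this]
  exact forall_congr' fun y => by tauto

theorem mem_cog (v x : S) : x ∈ (cog R v).extent ↔ ¬ R x v := by
  change x ∈ lowerPolar _ {v} ↔ _
  simp [mem_lowerPolar_iff]

theorem gen_le {v : S} {c : Lat R} : gen R v ≤ c ↔ v ∈ c.extent := by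
  rw [le_ext]
  constructor
  · intro h
    exact h ((mem_gen v v).2 fun w hw => hw)
  · intro h x hx
    rw [mem_gen] at hx
    rw [mem_ext] at h ⊢
    exact fun y hy hxy => h y hy (hx y hxy)

theorem le_cog {v : S} {c : Lat R} : c ≤ cog R v ↔ v ∈ c.intent := by
  rw [le_ext, mem_int]
  exact forall_congr' fun x => by rw [mem_cog]

theorem inf_ext (c d : Lat R) (x : S) : x ∈ (c ⊓ d).extent ↔ x ∈ c.extent ∧ x ∈ d.extent := Iff.rfl

theorem sup_int (c d : Lat R) (x : S) : x ∈ (c ⊔ d).intent ↔ x ∈ c.intent ∧ x ∈ d.intent := Iff.rfl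

variable [Finite S]

instance : Finite (Lat R) := Finite.of_injective _ Concept.extent_injective

theorem semidistributive (hR : Fac R) : Semidistributive (Lat R) := by
  constructor
  · intro X Y Z hXYZ
    apply le_antisymm
    · exact sup_le_sup_left inf_le_left _
    · rw [← Concept.intent_subset_intent_iff]
      intro w0 hw0
      by_contra hb0
      have hXY : ∀ w, w ∈ X.intent → (w ∈ Y.intent ↔ w ∈ Z.intent) := by
        intro w hw
        have h1 := sup_int X Y w
        have h2 := sup_int X Z w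
        rw [hXYZ] at h1
        tauto
      have hfin := (Set.toFinite {w : S | w ∈ X.intent ∧ w ∈ (Y ⊓ Z).intent ∧ w ∉ Y.intent})
      obtain ⟨w, hw⟩ := hfin.exists_minimalFor (fun w => {a : S | R a w}) _ ⟨w0, by
        rw [sup_int] at hw0 hb0
        exact ⟨hw0.1, hw0.2, fun h => hb0 ⟨hw0.1, h⟩⟩⟩
      have step : ∀ T : Lat R, w ∉ T.intent → (∀ z, z ∉ T.intent → z ∈ X.intent → z ∉ Y.intent) →
          w ∈ T.extent := by
        intro T hT hTY
        have : ∃ x ∈ T.extent, R x w := by
          by_contra hc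
          push Not at hc
          exact hT ((mem_int _ _).2 hc)
        obtain ⟨x, hx, hxw⟩ := this
        obtain ⟨z, hz1, hz2⟩ := hR.fac x w hxw
        have hxz : R x z := hz1 z (hR.refl z)
        have hzw : R z w := hz2 z (hR.refl z)
        have hzX : z ∈ X.intent := by
          rw [mem_int] at *
          exact fun a ha hc => (mem_int _ _).1 hw.1.1 a ha (hz2 a hc)
        have hzYZ : z ∈ (Y ⊓ Z).intent := by
          rw [mem_int]
          exact fun a ha hc => (mem_int _ _).1 hw.1.2.1 a ha (hz2 a hc)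
        have hzT : z ∉ T.intent := fun hc => (mem_int _ _).1 hc x hx hxz
        have hzY : z ∉ Y.intent := hTY z hzT hzX
        have hwz : R w z := by
          have := hw.2 (j := z) ⟨hzX, hzYZ, hzY⟩ (fun a ha => hz2 a ha)
          exact this (hR.refl w)
        have : w = z := hR.anti _ _ hwz hzw
        subst this
        rw [mem_ext]
        intro b hb hc
        exact (mem_ext _ _).1 hx b hb (hz1 b hc)
      have hwY : w ∈ Y.extent := step Y hw.1.2.2 (fun z hz _ => hz)
      have hwZ : w ∈ Z.extent := by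
        apply step Z
        · intro hc; exact hw.1.2.2 ((hXY w hw.1.1).2 hc)
        · intro z hz hzX hc; exact hz ((hXY z hzX).1 hc)
      exact (mem_int _ _).1 hw.1.2.1 w ((inf_ext _ _ _).2 ⟨hwY, hwZ⟩) (hR.refl w)
  · intro X Y Z hXYZ
    apply le_antisymm
    · rw [le_ext]
      intro w0 hw0
      by_contra hb0
      have hXY : ∀ w, w ∈ X.extent → (w ∈ Y.extent ↔ w ∈ Z.extent) := by
        intro w hw
        have h1 := inf_ext X Y w
        have h2 := inf_ext X Z w
        rw [hXYZ] at h1
        tauto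
      have hfin := (Set.toFinite {w : S | w ∈ X.extent ∧ w ∈ (Y ⊔ Z).extent ∧ w ∉ Y.extent})
      obtain ⟨w, hw⟩ := hfin.exists_minimalFor (fun w => {a : S | R w a}) _ ⟨w0, by
        rw [inf_ext] at hw0 hb0
        exact ⟨hw0.1, hw0.2, fun h => hb0 ⟨hw0.1, h⟩⟩⟩
      have step : ∀ T : Lat R, w ∉ T.extent → (∀ z, z ∉ T.extent → z ∈ X.extent → z ∉ Y.extent) →
          w ∈ T.intent := by
        intro T hT hTY
        have : ∃ y ∈ T.intent, R w y := by
          by_contra hc
          push Not at hc
          exact hT ((mem_ext _ _).2 hc)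
        obtain ⟨y, hy, hwy⟩ := this
        obtain ⟨z, hz1, hz2⟩ := hR.fac w y hwy
        have hwz : R w z := hz1 z (hR.refl z)
        have hzy : R z y := hz2 z (hR.refl z)
        have hzX : z ∈ X.extent := by
          rw [mem_ext]
          exact fun a ha hc => (mem_ext _ _).1 hw.1.1 a ha (hz1 a hc)
        have hzYZ : z ∈ (Y ⊔ Z).extent := by
          rw [mem_ext]
          exact fun a ha hc => (mem_ext _ _).1 hw.1.2.1 a ha (hz1 a hc)
        have hzT : z ∉ T.extent := fun hc => (mem_ext _ _).1 hc y hy hzy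
        have hzY : z ∉ Y.extent := hTY z hzT hzX
        have hzw : R z w := by
          have := hw.2 (j := z) ⟨hzX, hzYZ, hzY⟩ (fun a ha => hz1 a ha)
          exact this (hR.refl w)
        have : w = z := hR.anti _ _ hwz hzw
        subst this
        rw [mem_int]
        intro b hb hc
        exact (mem_ext _ _).1 hb y hy (hz2 b hc)
      have hwY : w ∈ Y.intent := step Y hw.1.2.2 (fun z hz _ => hz)
      have hwZ : w ∈ Z.intent := by
        apply step Z
        · intro hc; exact hw.1.2.2 ((hXY w hw.1.1).2 hc)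
        · intro z hz hzX hc; exact hz ((hXY z hzX).1 hc)
      exact (mem_ext _ _).1 hw.1.2.1 w ((sup_int _ _ _).2 ⟨hwY, hwZ⟩) (hR.refl w)
    · exact inf_le_inf_left _ le_sup_left

theorem lt_gen_le_cog (hR : Fac R) {v : S} {b : Lat R} (h : b < gen R v) : b ≤ cog R v := by
  rw [le_ext]
  intro x hx
  rw [mem_cog]
  intro hxv
  have h1 := (mem_gen v x).1 (h.le hx) x (hR.refl x)
  have : x = v := hR.anti _ _ hxv h1
  subst this
  exact absurd (gen_le.2 hx) (not_le_of_gt h)

theorem not_gen_le_cog (hR : Fac R) (v : S) : ¬ gen R v ≤ cog R v := by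
  rw [gen_le, mem_cog]
  exact fun h => h (hR.refl v)

theorem gen_irred (hR : Fac R) (v : S) : SupIrred (gen R v) := by
  refine ⟨fun hm => ?_, fun b c hbc => ?_⟩
  · have h1 : gen R v ⊓ cog R v ≤ gen R v := inf_le_left
    have h2 := hm h1
    exact not_gen_le_cog hR v (h2.trans inf_le_right)
  · by_contra h
    push Not at h
    have hb : b < gen R v := lt_of_le_of_ne (hbc ▸ le_sup_left) h.1
    have hc : c < gen R v := lt_of_le_of_ne (hbc ▸ le_sup_right) h.2
    apply not_gen_le_cog hR v
    rw [← hbc]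
    rw [← hbc] at hb hc
    have := sup_le (lt_gen_le_cog hR (b := b) (v := v) (hbc ▸ hb)) (lt_gen_le_cog hR (hbc ▸ hc))
    exact this

theorem gen_inj (hR : Fac R) {u v : S} (h : gen R u = gen R v) : u = v := by
  have h1 : u ∈ (gen R v).extent := gen_le.1 h.le
  have h2 : v ∈ (gen R u).extent := gen_le.1 h.ge
  rw [mem_gen] at h1 h2
  exact hR.anti _ _ (h2 v (hR.refl v)) (h1 u (hR.refl u))

theorem kap_gen (hR : Fac R) (v : S) : kap (gen R v) = cog R v := by
  have hirr := gen_irred hR v
  apply kap_unique (semidistributive hR) hirr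
  · exact lt_gen_le_cog hR (low_lt hirr)
  · exact not_gen_le_cog hR v
  · intro w h1 h2
    rw [gen_le] at h2
    rw [le_cog]
    have : ∃ y ∈ w.intent, R v y := by
      by_contra hc
      push Not at hc
      exact h2 ((mem_ext _ _).2 hc)
    obtain ⟨y, hy, hvy⟩ := this
    obtain ⟨z, hz1, hz2⟩ := hR.fac v y hvy
    have hzy : R z y := hz2 z (hR.refl z)
    have hzw : z ∉ w.extent := fun hc => (mem_ext _ _).1 hc y hy hzy
    have hzv : gen R z ≤ gen R v := by rw [gen_le, mem_gen]; exact hz1
    have hzv2 : z = v := by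
      by_contra hne
      have hlt : gen R z < gen R v := lt_of_le_of_ne hzv fun he => hne (gen_inj hR he)
      exact hzw (gen_le.1 ((le_low hlt).trans h1))
    subst hzv2
    rw [mem_int]
    intro a ha hc
    exact (mem_ext _ _).1 ha y hy (hz2 a hc)

theorem face_iff (hR : Fac R) {u v : S} (huv : u ≠ v) [DecidableEq (Lat R)] :
    (∃ w, IsCanonicalJoinRep ({gen R u, gen R v} : Finset (Lat R)) w) ↔ ¬ R u v ∧ ¬ R v u := by
  rw [pair_face_iff (semidistributive hR) (gen_irred hR u) (gen_irred hR v)
    (fun h => huv (gen_inj hR h)), kap_gen hR, kap_gen hR, gen_le, gen_le, mem_cog, mem_cog]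

end

end Pool.Agent.L7h36.CJC
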