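import Pool.Agent.L7h36.CJC.Defs

/-!
# Triangle-free graphs whose independence complex is a canonical join complex are 3-colourable
-/

set_option autoImplicit false

namespace Pool.Agent.L7h36.CJC

universe u v

variable {L : Type u} [Lattice L] [OrderBot L] [Finite L] {V : Type v}

theorem colourable (hL : Semidistributive L) (adj : V → V → Prop)
    (_symm : ∀ u v, adj u v → adj v u)
    (tf : ∀ u v w, adj u v → adj v w → adj u w → False)
    (φ : V ≃ {x : L // SupIrred x})
    (h : ∀ u v, u ≠ v → (adj u v ↔ ¬ ((φ u).1 ≤ kap (φ v).1 ∧ (φ v).1 ≤ kap (φ u).1))) :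
    ∃ c : V → Fin 3, ∀ u v, u ≠ v → adj u v → c u ≠ c v := by
  classical
  have hA : ∀ u v, u ≠ v → (adj u v ↔ Arr (φ u).1 (φ v).1 ∨ Arr (φ v).1 (φ u).1) := by
    intro u v huv
    rw [h u v huv]
    unfold Arr
    tauto
  have inj : ∀ u v, (φ u).1 = (φ v).1 → u = v := fun u v huv => φ.injective (Subtype.ext huv)
  have low' : ∀ u v, u ≠ v → (φ u).1 ≤ (φ v).1 → (φ u).1 ≤ kap (φ v).1 := by
    intro u v huv hle
    have : (φ u).1 < (φ v).1 := lt_of_le_of_ne hle fun he => huv (inj _ _ he)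
    exact (le_low this).trans (low_le_kap (φ v).2)
  -- no two-cycles
  have fac2 : ∀ u v, u ≠ v → Arr (φ u).1 (φ v).1 →
      (φ v).1 ≤ (φ u).1 ∨ kap (φ v).1 ≤ kap (φ u).1 := by
    intro u v huv ha
    obtain ⟨z, hz, hzu, hzv⟩ := factor ha
    obtain ⟨w, hw⟩ := φ.surjective ⟨z, hz⟩
    have hw' : (φ w).1 = z := by rw [hw]
    rw [← hw'] at hzu hzv
    by_cases h1 : w = u
    · subst h1; right; exact hzv
    by_cases h2 : w = v
    · subst h2; left; exact hzu
    exfalso
    have a1 : Arr (φ u).1 (φ w).1 := fun hc => not_le_kap hL (φ w).2 (hzu.trans hc)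
    have a2 : Arr (φ w).1 (φ v).1 := fun hc => not_le_kap hL (φ w).2 (hc.trans hzv)
    exact tf u w v ((hA u w (Ne.symm h1)).2 (Or.inl a1)) ((hA w v h2).2 (Or.inl a2))
      ((hA u v huv).2 (Or.inl ha))
  have two : ∀ u v, u ≠ v → Arr (φ u).1 (φ v).1 → Arr (φ v).1 (φ u).1 → False := by
    intro u v huv h1 h2
    rcases fac2 u v huv h1 with h3 | h3
    · rcases fac2 v u huv.symm h2 with h4 | h4
      · exact huv (inj _ _ (le_antisymm h4 h3))
      · exact not_le_kap hL (φ v).2 ((low' v u huv.symm h3).trans h4)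
    · rcases fac2 v u huv.symm h2 with h4 | h4
      · exact not_le_kap hL (φ u).2 ((low' u v huv h4).trans h3)
      · exact huv (inj _ _ (kap_inj hL (φ u).2 (φ v).2 (le_antisymm h4 h3)))
  have key : ∀ u v, u ≠ v → Arr (φ u).1 (φ v).1 →
      (∀ w, Arr (φ w).1 (φ u).1 → w = u) ∨ (∀ w, Arr (φ v).1 (φ w).1 → w = v) := by
    intro u v huv ha
    rcases fac2 u v huv ha with h3 | h3
    · right
      intro w hw
      by_contra hwv
      have h4 : Arr (φ u).1 (φ w).1 := fun hc => hw (h3.trans hc)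
      by_cases h5 : w = u
      · subst h5; exact two _ _ huv ha hw
      · exact tf u v w ((hA u v huv).2 (Or.inl ha)) ((hA v w (Ne.symm hwv)).2 (Or.inl hw))
          ((hA u w (Ne.symm h5)).2 (Or.inl h4))
    · left
      intro w hw
      by_contra hwu
      have h4 : Arr (φ w).1 (φ v).1 := fun hc => hw (hc.trans h3)
      by_cases h5 : w = v
      · subst h5; exact two _ _ huv ha hw
      · exact tf w u v ((hA w u hwu).2 (Or.inl hw)) ((hA u v huv).2 (Or.inl ha))
          ((hA w v h5).2 (Or.inl h4))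
  refine ⟨fun u => if ∀ w, Arr (φ w).1 (φ u).1 → w = u then 0 else
    if ∀ w, Arr (φ u).1 (φ w).1 → w = u then 1 else 2, ?_⟩
  have main : ∀ u v, u ≠ v → Arr (φ u).1 (φ v).1 →
      (if ∀ w, Arr (φ w).1 (φ u).1 → w = u then (0 : Fin 3) else
        if ∀ w, Arr (φ u).1 (φ w).1 → w = u then 1 else 2) ≠
      (if ∀ w, Arr (φ w).1 (φ v).1 → w = v then 0 else
        if ∀ w, Arr (φ v).1 (φ w).1 → w = v then 1 else 2) := by
    intro u v huv ha
    have h1 : ¬ ∀ w, Arr (φ u).1 (φ w).1 → w = u := fun hc => huv (hc v ha).symm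
    have h2 : ¬ ∀ w, Arr (φ w).1 (φ v).1 → w = v := fun hc => huv (hc u ha)
    rw [if_neg h1, if_neg h2]
    rcases key u v huv ha with h3 | h3
    · rw [if_pos h3]; split_ifs <;> decide
    · rw [if_pos h3]; split_ifs <;> decide
  intro u v huv hadj
  rcases (hA u v huv).1 hadj with h1 | h1
  · exact main u v huv h1
  · exact (main v u huv.symm h1).symm

end Pool.Agent.L7h36.CJC
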