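import Mathlib

/-!
# Canonical join complexes of finite semidistributive lattices: definitions and local structure
-/

set_option autoImplicit false

namespace Pool.Agent.L7h36.CJC

universe u v

/-- A lattice is semidistributive if it is join-semidistributive and meet-semidistributive. -/
structure Semidistributive (L : Type u) [Lattice L] : Prop where
  join : ∀ x y z : L, x ⊔ y = x ⊔ z → x ⊔ (y ⊓ z) = x ⊔ y
  meet : ∀ x y z : L, x ⊓ y = x ⊓ z → x ⊓ (y ⊔ z) = x ⊓ y

/-- `A` is the canonical join representation of `w`: it has join `w`, no proper subset of `A` has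
join `w`, and `A` refines every set with join `w`. -/
def IsCanonicalJoinRep {L : Type u} [Lattice L] [OrderBot L] (A : Finset L) (w : L) : Prop :=
  A.sup id = w ∧ (∀ B, B ⊂ A → B.sup id ≠ w) ∧
    ∀ B : Finset L, B.sup id = w → ∀ a ∈ A, ∃ b ∈ B, a ≤ b

/-- The canonical join complex of `L`, as the set of its faces: the vertices are the
join-irreducible elements and the faces are the canonical join representations. -/
def cjc (L : Type u) [Lattice L] [OrderBot L] : Set (Finset {x : L // SupIrred x}) :=
  {A | ∃ w, IsCanonicalJoinRep (A.map (Function.Embedding.subtype _)) w}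

/-- The subcomplex induced on a set `W` of vertices. -/
def induced {V : Type u} (Δ : Set (Finset V)) (W : Set V) : Set (Finset W) :=
  {A | A.map (Function.Embedding.subtype _) ∈ Δ}

/-- Isomorphism of complexes. -/
def Iso {V : Type u} {V' : Type v} (Δ : Set (Finset V)) (Δ' : Set (Finset V')) : Prop :=
  ∃ φ : V ≃ V', ∀ A : Finset V, A ∈ Δ ↔ A.map φ.toEmbedding ∈ Δ'

section

variable {L : Type u} [Lattice L] [OrderBot L] [Finite L]

open Classical in
/-- The join of the elements below `x`. -/
noncomputable def low (x : L) : L :=
  letI := Fintype.ofFinite L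
  (Finset.univ.filter (· < x)).sup id

theorem low_lt {x : L} (hx : SupIrred x) : low x < x := by
  classical
  let _ := Fintype.ofFinite L
  have h1 : low x ≤ x := by
    unfold low
    apply Finset.sup_le
    intro b hb
    have : b < x := by simpa using hb
    exact this.le
  refine lt_of_le_of_ne h1 fun h => ?_
  obtain ⟨i, hi, hi2⟩ := hx.finset_sup_eq h
  have : i < x := by simpa using hi
  exact absurd hi2 this.ne

theorem le_low {x y : L} (h : y < x) : y ≤ low x := by
  classical
  let _ := Fintype.ofFinite L
  unfold low
  exact Finset.le_sup (f := id) (by simpa using h)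

theorem lt_iff {x y : L} (hx : SupIrred x) : y < x ↔ y ≤ low x :=
  ⟨le_low, fun h => h.trans_lt (low_lt hx)⟩

open Classical in
/-- The element `κ x`. -/
noncomputable def kap (x : L) : L :=
  letI := Fintype.ofFinite L
  (Finset.univ.filter (fun w => x ⊓ w = low x)).sup id

theorem inf_kap (hL : Semidistributive L) {x : L} (hx : SupIrred x) : x ⊓ kap x = low x := by
  classical
  let _ := Fintype.ofFinite L
  have hlow : low x ≤ kap x := by
    unfold kap
    refine Finset.le_sup (f := id) ?_
    simp only [Finset.mem_filter, Finset.mem_univ, true_and]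
    exact inf_eq_right.2 (low_lt hx).le
  have h : kap x = ⊥ ∨ x ⊓ kap x = low x := by
    unfold kap
    refine Finset.sup_induction (p := fun w => w = ⊥ ∨ x ⊓ w = low x) (Or.inl rfl) ?_ ?_
    · rintro a (rfl | ha) b hb
      · simpa using hb
      · rcases hb with rfl | hb
        · right; simpa using ha
        · right
          rw [hL.meet x a b (ha.trans hb.symm), ha]
    · intro w hw
      right
      simpa using hw
  rcases h with h | h
  · rw [h] at hlow ⊢
    rw [le_bot_iff.1 hlow]
    simp
  · exact h

theorem low_le_kap {x : L} (hx : SupIrred x) : low x ≤ kap x := by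
  classical
  let _ := Fintype.ofFinite L
  unfold kap
  refine Finset.le_sup (f := id) ?_
  simp only [Finset.mem_filter, Finset.mem_univ, true_and]
  exact inf_eq_right.2 (low_lt hx).le

theorem not_le_kap (hL : Semidistributive L) {x : L} (hx : SupIrred x) : ¬ x ≤ kap x := by
  intro h
  have h1 := inf_kap hL hx
  rw [inf_eq_left.2 h] at h1
  exact absurd h1 (low_lt hx).ne'

theorem le_kap {x w : L} (hx : SupIrred x) (h1 : low x ≤ w) (h2 : ¬ x ≤ w) : w ≤ kap x := by
  classical
  let _ := Fintype.ofFinite L
  unfold kap
  refine Finset.le_sup (f := id) ?_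
  simp only [Finset.mem_filter, Finset.mem_univ, true_and]
  apply le_antisymm
  · rw [← lt_iff hx]
    refine lt_of_le_of_ne inf_le_left fun h => h2 ?_
    rw [← h]; exact inf_le_right
  · exact le_inf (low_lt hx).le h1

/-- A characterisation of `κ x`. -/
theorem kap_unique (hL : Semidistributive L) {x m : L} (hx : SupIrred x) (h1 : low x ≤ m)
    (h2 : ¬ x ≤ m) (h3 : ∀ w, low x ≤ w → ¬ x ≤ w → w ≤ m) : kap x = m :=
  le_antisymm (h3 _ (low_le_kap hx) (not_le_kap hL hx)) (le_kap hx h1 h2)

theorem kap_inj (hL : Semidistributive L) {x y : L} (hx : SupIrred x) (hy : SupIrred y)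
    (h : kap x = kap y) : x = y := by
  have key : ∀ {x y : L}, SupIrred x → SupIrred y → kap x = kap y → x ⊔ kap x ≤ y ⊔ kap x := by
    intro x y hx hy h
    refine sup_le ?_ le_sup_right
    by_contra h1
    have h2 := le_kap hx ((low_le_kap hx).trans le_sup_right) h1
    have h3 : y ≤ kap x := le_sup_left.trans h2
    rw [h] at h3
    exact not_le_kap hL hy h3
  have e : kap x ⊔ x = kap x ⊔ y := by
    rw [sup_comm, sup_comm (kap x) y]
    apply le_antisymm (key hx hy h)
    have := key hy hx h.symm
    rwa [← h] at this
  have e2 := hL.join _ _ _ e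
  have key2 : ∀ {x z : L}, SupIrred x → kap x ⊔ (x ⊓ z) = kap x ⊔ x → x ≤ z := by
    intro x z hx h1
    by_contra h2
    have h3 : x ⊓ z < x := by
      refine lt_of_le_of_ne inf_le_left fun h => h2 ?_
      rw [← h]; exact inf_le_right
    have h4 : x ⊓ z ≤ kap x := (le_low h3).trans (low_le_kap hx)
    rw [sup_eq_left.2 h4] at h1
    apply not_le_kap hL hx
    rw [h1]; exact le_sup_right
  apply le_antisymm (key2 hx e2)
  apply key2 hy
  rw [← h, inf_comm, e2, e]

/-- The relation `x → y`. -/
def Arr (x y : L) : Prop := ¬ x ≤ kap y

/-- Every arrow factors. -/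
theorem factor {x y : L} (h : Arr x y) :
    ∃ z : L, SupIrred z ∧ z ≤ x ∧ kap y ≤ kap z := by
  classical
  have hne : ({z : L | z ≤ x ∧ ¬ z ≤ kap y}).Nonempty := ⟨x, le_rfl, h⟩
  obtain ⟨z, hz⟩ := (Set.toFinite {z : L | z ≤ x ∧ ¬ z ≤ kap y}).exists_minimal hne
  have hmin : ∀ w, w < z → w ≤ kap y := by
    intro w hw
    by_contra h1
    exact absurd (hz.2 (y := w) ⟨hw.le.trans hz.1.1, h1⟩ hw.le) (not_le_of_gt hw)
  have hirr : SupIrred z := by
    refine ⟨fun hm => hz.1.2 ?_, fun b c hbc => ?_⟩
    · rw [isMin_iff_eq_bot.1 hm]; exact bot_le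
    · by_contra h1
      push Not at h1
      apply hz.1.2
      rw [← hbc]
      apply sup_le
      · exact hmin _ (lt_of_le_of_ne (hbc ▸ le_sup_left) h1.1)
      · exact hmin _ (lt_of_le_of_ne (hbc ▸ le_sup_right) h1.2)
  exact ⟨z, hirr, hz.1.1, le_kap hirr (hmin _ (low_lt hirr)) hz.1.2⟩

theorem pair_face_iff (hL : Semidistributive L) {x y : L} (hx : SupIrred x) (hy : SupIrred y)
    (hxy : x ≠ y) [DecidableEq L] :
    (∃ w, IsCanonicalJoinRep ({x, y} : Finset L) w) ↔ x ≤ kap y ∧ y ≤ kap x := by
  have key1 : ∀ {x y : L}, SupIrred x → SupIrred y → x ≠ y →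
      (∃ w, IsCanonicalJoinRep ({x, y} : Finset L) w) → y ≤ kap x := by
    rintro x y hx hy hxy ⟨w, h1, h2, h3⟩
    have hw : x ⊔ y = w := by simpa using h1
    have hnxy : ¬ x ≤ y := by
      intro hle
      refine h2 {y} ?_ ?_
      · rw [Finset.ssubset_iff_subset_ne]
        refine ⟨by simp, fun he => ?_⟩
        have : x ∈ ({y} : Finset L) := by rw [he]; simp
        exact hxy (by simpa using this)
      · rw [← hw]; simpa using hle
    have h4 : ¬ x ≤ low x ⊔ y := by
      intro h5
      have h6 : ({low x, y} : Finset L).sup id = w := by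
        rw [← hw]
        simp only [Finset.sup_insert, id, Finset.sup_singleton]
        apply le_antisymm
        · exact sup_le_sup_right (low_lt hx).le _
        · exact sup_le h5 le_sup_right
      obtain ⟨b, hb, hb2⟩ := h3 _ h6 x (by simp)
      simp only [Finset.mem_insert, Finset.mem_singleton] at hb
      rcases hb with rfl | rfl
      · exact absurd hb2 (not_le_of_gt (low_lt hx))
      · exact hnxy hb2
    exact le_sup_right.trans (le_kap hx le_sup_left h4)
  constructor
  · intro h
    refine ⟨key1 hy hx hxy.symm ?_, key1 hx hy hxy h⟩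
    rwa [Finset.pair_comm]
  · rintro ⟨h1, h2⟩
    have hnxy : ¬ x ≤ y := fun h => not_le_kap hL hx (h.trans h2)
    have hnyx : ¬ y ≤ x := fun h => not_le_kap hL hy (h.trans h1)
    have key2 : ∀ {x y : L}, SupIrred x → y ≤ kap x → ∀ B : Finset L, B.sup id = x ⊔ y →
        ∃ b ∈ B, x ≤ b := by
      intro x y hx h2 B hB
      have hex : ∃ b ∈ B, ¬ b ≤ kap x := by
        by_contra h
        push Not at h
        have : B.sup id ≤ kap x := Finset.sup_le h
        rw [hB] at this
        exact not_le_kap hL hx (le_sup_left.trans this)
      obtain ⟨b, hb, hb2⟩ := hex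
      refine ⟨b, hb, ?_⟩
      have hbw : b ≤ x ⊔ y := by rw [← hB]; exact Finset.le_sup (f := id) hb
      set m := kap x ⊓ (x ⊔ y) with hm
      have hlm : low x ≤ m := le_inf (low_le_kap hx) ((low_lt hx).le.trans le_sup_left)
      have hym : y ≤ m := le_inf h2 le_sup_right
      have hmw : m ≤ x ⊔ y := inf_le_right
      have hxbm : x ≤ m ⊔ b := by
        by_contra h
        have := le_kap hx (hlm.trans le_sup_left) h
        exact hb2 (le_sup_right.trans this)
      have e1 : m ⊔ b = x ⊔ y :=
        le_antisymm (sup_le hmw hbw) (sup_le hxbm (hym.trans le_sup_left))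
      have e2 : m ⊔ x = x ⊔ y :=
        le_antisymm (sup_le hmw le_sup_left) (sup_le le_sup_right (hym.trans le_sup_left))
      have e3 := hL.join m x b (e2.trans e1.symm)
      by_contra h
      have h4 : x ⊓ b < x := by
        refine lt_of_le_of_ne inf_le_left fun h' => h ?_
        rw [← h']; exact inf_le_right
      have h5 : x ⊓ b ≤ m := (le_low h4).trans hlm
      rw [sup_eq_left.2 h5, e2] at e3
      have : x ≤ m := by rw [e3]; exact le_sup_left
      exact not_le_kap hL hx (this.trans inf_le_left)
    refine ⟨x ⊔ y, by simp, ?_, ?_⟩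
    · intro B hB hB2
      have hsub : B ⊆ {x} ∨ B ⊆ {y} := by
        rw [Finset.ssubset_iff_subset_ne] at hB
        by_cases hyB : y ∈ B
        · right
          intro b hb
          have := hB.1 hb
          simp only [Finset.mem_insert, Finset.mem_singleton] at this ⊢
          rcases this with rfl | h
          · exfalso
            apply hB.2
            apply Finset.Subset.antisymm hB.1
            intro c hc
            simp only [Finset.mem_insert, Finset.mem_singleton] at hc
            rcases hc with rfl | rfl
            · exact hb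
            · exact hyB
          · exact h
        · left
          intro b hb
          have := hB.1 hb
          simp only [Finset.mem_insert, Finset.mem_singleton] at this ⊢
          rcases this with h | rfl
          · exact h
          · exact absurd hb hyB
      rcases hsub with h | h
      · have : B.sup id ≤ x := by
          apply Finset.sup_le
          intro b hb
          have := h hb
          simp only [Finset.mem_singleton] at this
          exact this.le
        rw [hB2] at this
        exact hnyx (le_sup_right.trans this)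
      · have : B.sup id ≤ y := by
          apply Finset.sup_le
          intro b hb
          have := h hb
          simp only [Finset.mem_singleton] at this
          exact this.le
        rw [hB2] at this
        exact hnxy (le_sup_left.trans this)
    · intro B hB a ha
      simp only [Finset.mem_insert, Finset.mem_singleton] at ha
      rcases ha with rfl | rfl
      · exact key2 hx h2 B hB
      · exact key2 hy h1 B (by rw [hB, sup_comm])

end

end Pool.Agent.L7h36.CJC
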